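import Pool.Agent.REV.StmtsU3
import Pool.Agent.Helper65_REV.A13All

/-!
# Row RP3 of the squad REV (problem MP_bbfd73_gt)

`RA` and `RB` of a positive continuous density are positive and bounded, `n ≥ 3`.
-/

set_option autoImplicit false

namespace Pool.Agent.REV.H76

open Set MeasureTheory
open Pool.Agent.REV

theorem pos_bdd_int3 {f w : ℝ → ℝ} {M : ℝ} (hw : IntervalIntegrable w volume 0 1)
    (hw0 : ∀ r ∈ Ioo (0 : ℝ) 1, 0 < w r) (hw1 : ∫ r in (0 : ℝ)..1, w r ≤ 1)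
    (hf : ContinuousOn f (Icc 0 1)) (hfp : ∀ t ∈ Icc (0 : ℝ) 1, 0 < f t ∧ f t ≤ M) {c : ℝ}
    (hc : c ∈ Icc (0 : ℝ) 1) :
    0 < ∫ r in (0 : ℝ)..1, w r * f (r * c) ∧ ∫ r in (0 : ℝ)..1, w r * f (r * c) ≤ M := by
  have hmem : ∀ r ∈ Icc (0 : ℝ) 1, r * c ∈ Icc (0 : ℝ) 1 := fun r hr =>
    ⟨mul_nonneg hr.1 hc.1, mul_le_one₀ hr.2 hc.1 hc.2⟩
  have hfc : ContinuousOn (fun r => f (r * c)) (uIcc 0 1) := by
    rw [uIcc_of_le zero_le_one]
    exact hf.comp (continuous_id.mul continuous_const).continuousOn hmem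
  have hint : IntervalIntegrable (fun r => w r * f (r * c)) volume 0 1 :=
    hw.mul_continuousOn hfc
  have hM : 0 < M := by
    have h := hfp 0 ⟨le_rfl, zero_le_one⟩
    linarith [h.1, h.2]
  constructor
  · refine intervalIntegral.intervalIntegral_pos_of_pos_on hint ?_ zero_lt_one
    intro r hr
    exact mul_pos (hw0 r hr) (hfp _ (hmem r ⟨hr.1.le, hr.2.le⟩)).1
  · have h := intervalIntegral.integral_mono_on_of_le_Ioo zero_le_one hint
      (hw.mul_const M) (fun r hr =>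
        mul_le_mul_of_nonneg_left (hfp _ (hmem r ⟨hr.1.le, hr.2.le⟩)).2 (hw0 r hr).le)
    rw [intervalIntegral.integral_mul_const] at h
    have h2 := mul_le_mul_of_nonneg_right hw1 hM.le
    linarith

/-- RP3. -/
theorem rp3 (ki3 : Ki3Stmt) : Rp3Stmt := by
  intro n f M hn hf hfp c hc
  have hn' : (3 : ℝ) ≤ n := by exact_mod_cast hn
  obtain ⟨hIA, hIB, -, -⟩ := Pool.Agent.REV.H65.int3All n hn
  have hsq : ∀ ρ ∈ Ioo (0 : ℝ) 1, 0 < 1 - ρ ^ 2 ∧ 1 - ρ ^ 2 ≤ 1 := by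
    intro ρ hρ
    constructor
    · nlinarith [hρ.1, hρ.2]
    · nlinarith [hρ.1, hρ.2]
  have hA1 : ∫ r in (0 : ℝ)..1, (1 - r ^ 2) ^ (((n : ℝ) - 2) / 2) ≤ 1 := by
    have h := intervalIntegral.integral_mono_on_of_le_Ioo zero_le_one hIA
      (intervalIntegrable_const (c := (1 : ℝ))) (fun r hr =>
        Real.rpow_le_one (hsq r hr).1.le (hsq r hr).2 (by linarith))
    rw [intervalIntegral.integral_const] at h
    simpa using h
  have hB1 : ∫ r in (0 : ℝ)..1, r ^ 2 * (1 - r ^ 2) ^ (((n : ℝ) - 4) / 2) ≤ 1 := by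
    have h := (ki3 n hn).2.2.2 1 ⟨zero_le_one, le_rfl⟩
    have h0 : (1 : ℝ) * (1 - 1 ^ 2) ^ (((n : ℝ) - 2) / 2) = 0 := by
      rw [one_pow, sub_self, Real.zero_rpow (by linarith), mul_zero]
    rw [h0] at h
    have h1 : ∫ r in (0 : ℝ)..1, kk n r =
        (∫ r in (0 : ℝ)..1, (1 - r ^ 2) ^ (((n : ℝ) - 2) / 2)) -
          ((n : ℝ) - 2) * ∫ r in (0 : ℝ)..1, r ^ 2 * (1 - r ^ 2) ^ (((n : ℝ) - 4) / 2) := by
      unfold kk
      rw [intervalIntegral.integral_sub hIA (hIB.const_mul _),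
        intervalIntegral.integral_const_mul]
    rw [h1] at h
    have h2 : (0 : ℝ) ≤ ∫ r in (0 : ℝ)..1, r ^ 2 * (1 - r ^ 2) ^ (((n : ℝ) - 4) / 2) := by
      apply intervalIntegral.integral_nonneg zero_le_one
      intro r hr
      have h3 : 0 ≤ 1 - r ^ 2 := by nlinarith [hr.1, hr.2]
      exact mul_nonneg (sq_nonneg r) (Real.rpow_nonneg h3 _)
    nlinarith
  have hA := pos_bdd_int3 (f := f) (M := M) hIA
    (fun r hr => Real.rpow_pos_of_pos (hsq r hr).1 _) hA1 hf hfp hc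
  have hB := pos_bdd_int3 (f := f) (M := M) hIB
    (fun r hr => mul_pos (by have := hr.1; positivity) (Real.rpow_pos_of_pos (hsq r hr).1 _))
    hB1 hf hfp hc
  exact ⟨hA.1, hB.1, hA.2, hB.2⟩

end Pool.Agent.REV.H76
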