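import Pool.Agent.REV.StmtsG

/-!
# Row BPI of the squad REV: the Blaschke-Petkantschin formula for `i ≤ n - 1`
-/

set_option autoImplicit false

namespace Pool.Agent.REV.H76

open MeasureTheory Module Pool.Agent.REV

/-- BPI. -/
theorem bpi (bp0 : Bp0Stmt) (bps : BpsStmt) : BpiStmt := by
  intro E _ _ _ _ _ i
  induction i with
  | zero =>
    intro h
    have : Nontrivial E := Module.nontrivial_of_finrank_pos (R := ℝ) (by omega)
    exact bp0 E
  | succ i ih =>
    intro h
    exact bps E i (by omega) (ih (by omega))

end Pool.Agent.REV.H76
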