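import Pool.Agent.REV.StmtsA2

/-!
# Row RBL of the squad REV: `RB` of a function with power bounds
-/

set_option autoImplicit false

namespace Pool.Agent.REV.H76

open Set MeasureTheory Pool.Agent.REV

/-- the pointwise bound of the integrand -/
theorem rbl_point (n : ℕ) (α β M c r : ℝ) (f : ℝ → ℝ) (hn : (4 : ℝ) ≤ n) (hα1 : α ≤ 1)
    (hβ : β ≤ ((n : ℝ) - 2) / 2) (hM : 0 ≤ M) (hst : StB α β M f) (hc0 : 0 < c) (hc1 : c < 1)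
    (hr0 : 0 < r) (hr1 : r < 1) :
    r ^ 2 * (1 - r ^ 2) ^ (((n : ℝ) - 4) / 2) * f (r * c) ≤
      (M * c ^ (-α) * (1 - c ^ 2) ^ (-(1 / 8) : ℝ)) * (r * (1 - r ^ 2) ^ (-(7 / 8) : ℝ)) := by
  have hrc0 : 0 < r * c := mul_pos hr0 hc0
  have hrc1 : r * c < 1 := by nlinarith
  have h1 := hst (r * c) hrc0 hrc1
  have hA : 0 < 1 - r ^ 2 := by nlinarith
  have hD : 0 < 1 - c ^ 2 := by nlinarith
  have hc2 : c ^ 2 ≤ 1 := by nlinarith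
  have hr2 : r ^ 2 ≤ 1 := by nlinarith
  have hAB : 1 - r ^ 2 ≤ 1 - (r * c) ^ 2 := by
    rw [mul_pow]
    nlinarith [sq_nonneg r]
  have hDB : 1 - c ^ 2 ≤ 1 - (r * c) ^ 2 := by
    rw [mul_pow]
    nlinarith [sq_nonneg c]
  have hB1 : 1 - (r * c) ^ 2 ≤ 1 := by nlinarith [sq_nonneg (r * c)]
  have hB : 0 < 1 - (r * c) ^ 2 := lt_of_lt_of_le hA hAB
  have e1 : (r * c) ^ (-α) = r ^ (-α) * c ^ (-α) := Real.mul_rpow hr0.le hc0.le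
  have e2 : r ^ 2 * r ^ (-α) ≤ r := by
    calc r ^ 2 * r ^ (-α) = r ^ ((2 : ℝ) + (-α)) := by rw [Real.rpow_add hr0, Real.rpow_two]
      _ ≤ r ^ (1 : ℝ) := Real.rpow_le_rpow_of_exponent_ge hr0 hr1.le (by linarith)
      _ = r := Real.rpow_one r
  have e3 : (1 - r ^ 2) ^ (((n : ℝ) - 4) / 2) ≤ (1 - (r * c) ^ 2) ^ (((n : ℝ) - 4) / 2) :=
    Real.rpow_le_rpow hA.le hAB (by linarith)
  have e4 : (1 - (r * c) ^ 2) ^ (((n : ℝ) - 4) / 2) * (1 - (r * c) ^ 2) ^ (-β) ≤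
      (1 - c ^ 2) ^ (-(1 / 8) : ℝ) * (1 - r ^ 2) ^ (-(7 / 8) : ℝ) := by
    calc (1 - (r * c) ^ 2) ^ (((n : ℝ) - 4) / 2) * (1 - (r * c) ^ 2) ^ (-β)
        = (1 - (r * c) ^ 2) ^ (((n : ℝ) - 4) / 2 + -β) := (Real.rpow_add hB _ _).symm
      _ ≤ (1 - (r * c) ^ 2) ^ (-1 : ℝ) :=
          Real.rpow_le_rpow_of_exponent_ge hB hB1 (by linarith)
      _ = (1 - (r * c) ^ 2) ^ (-(1 / 8) : ℝ) * (1 - (r * c) ^ 2) ^ (-(7 / 8) : ℝ) := by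
          rw [← Real.rpow_add hB]
          norm_num
      _ ≤ _ := mul_le_mul (Real.rpow_le_rpow_of_nonpos hD hDB (by norm_num))
          (Real.rpow_le_rpow_of_nonpos hA hAB (by norm_num)) (Real.rpow_nonneg hB.le _)
          (Real.rpow_nonneg hD.le _)
  have hAg : 0 ≤ (1 - r ^ 2) ^ (((n : ℝ) - 4) / 2) := Real.rpow_nonneg hA.le _
  have hBb : 0 ≤ (1 - (r * c) ^ 2) ^ (-β) := Real.rpow_nonneg hB.le _
  have hca : 0 ≤ c ^ (-α) := Real.rpow_nonneg hc0.le _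
  have e5 : (1 - r ^ 2) ^ (((n : ℝ) - 4) / 2) * (1 - (r * c) ^ 2) ^ (-β) ≤
      (1 - c ^ 2) ^ (-(1 / 8) : ℝ) * (1 - r ^ 2) ^ (-(7 / 8) : ℝ) :=
    (mul_le_mul_of_nonneg_right e3 hBb).trans e4
  have e6 : (r ^ 2 * r ^ (-α)) * ((1 - r ^ 2) ^ (((n : ℝ) - 4) / 2) * (1 - (r * c) ^ 2) ^ (-β)) ≤
      r * ((1 - c ^ 2) ^ (-(1 / 8) : ℝ) * (1 - r ^ 2) ^ (-(7 / 8) : ℝ)) :=
    mul_le_mul e2 e5 (mul_nonneg hAg hBb) hr0.le
  calc r ^ 2 * (1 - r ^ 2) ^ (((n : ℝ) - 4) / 2) * f (r * c)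
      ≤ r ^ 2 * (1 - r ^ 2) ^ (((n : ℝ) - 4) / 2) *
          (M * (r * c) ^ (-α) * (1 - (r * c) ^ 2) ^ (-β)) :=
        mul_le_mul_of_nonneg_left h1 (mul_nonneg (sq_nonneg r) hAg)
    _ = (M * c ^ (-α)) * ((r ^ 2 * r ^ (-α)) *
          ((1 - r ^ 2) ^ (((n : ℝ) - 4) / 2) * (1 - (r * c) ^ 2) ^ (-β))) := by
        rw [e1]
        ring
    _ ≤ (M * c ^ (-α)) * (r * ((1 - c ^ 2) ^ (-(1 / 8) : ℝ) * (1 - r ^ 2) ^ (-(7 / 8) : ℝ))) :=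
        mul_le_mul_of_nonneg_left e6 (mul_nonneg hM hca)
    _ = _ := by ring

/-- RBL. -/
theorem rbl (hint : IntStmt) (pwi : PwiStmt) : RblStmt := by
  intro n α β M c f hn hα0 hα1 hβ0 hβ hM hf hst hc0 hc1
  have hn' : (4 : ℝ) ≤ n := by exact_mod_cast hn
  obtain ⟨hI, hV⟩ := pwi.2 (7 / 8) (by norm_num) (by norm_num)
  have hI2 := ((hint n f hn hf).2 c hc0.le hc1.le).2.1
  have hmono := intervalIntegral.integral_mono_on_of_le_Ioo (zero_le_one' ℝ) hI2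
    (hI.const_mul (M * c ^ (-α) * (1 - c ^ 2) ^ (-(1 / 8) : ℝ)))
    (fun r hr => rbl_point n α β M c r f hn' hα1 hβ hM hst hc0 hc1 hr.1 hr.2)
  unfold RB
  refine hmono.trans (le_of_eq ?_)
  rw [intervalIntegral.integral_const_mul, hV]
  norm_num
  ring

end Pool.Agent.REV.H76
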